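import Pool.Agent.HJ71.Fin

/-!
# HM71/Chi : modules and the dichromatic number

`part D π q`: the subdigraph induced by the part `π = q`. `blow R c K`: every `q` is replaced by a complete digraph on
`c q` vertices (`c q ≤ K`). If `blow R c K` is `w`-dicolourable and every part is `c q`-dicolourable then `D` is
`w`-dicolourable.
-/

namespace HM71

open HJ71

/-- the subdigraph induced by the vertices `x` with `π x = q` -/
def part (D : Dig) {r : ℕ} (π : D.V → Fin r) (q : Fin r) : Dig where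
  V := {x : D.V // π x = q}
  fin := by
    have := D.fin
    infer_instance
  adj x y := D.adj x.1 y.1
  irr x := D.irr x.1

/-- every `q` is replaced by a complete digraph on `c q` vertices -/
def blow {r : ℕ} (R : Fin r → Fin r → Prop) (c : Fin r → ℕ) (K : ℕ) : Dig where
  V := {v : Fin r × Fin K // v.2.1 < c v.1}
  fin := inferInstance
  adj u v := (u.1.1 ≠ v.1.1 ∧ R u.1.1 v.1.1) ∨ (u.1.1 = v.1.1 ∧ u.1.2 ≠ v.1.2)
  irr u h := by
    rcases h with h | h
    · exact h.1 rfl
    · exact h.2 rfl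

theorem card_blow {r : ℕ} (R : Fin r → Fin r → Prop) (c : Fin r → ℕ) (K : ℕ) :
    Nat.card (blow R c K).V ≤ r * K := by
  have h : Nat.card (blow R c K).V ≤ Nat.card (Fin r × Fin K) :=
    Nat.card_le_card_of_injective (Subtype.val : (blow R c K).V → Fin r × Fin K)
      Subtype.val_injective
  simpa [Nat.card_prod] using h

theorem dicolorable_mono {D : Dig} {w w' : ℕ} (h : Dicolorable D w) (hw : w ≤ w') :
    Dicolorable D w' := by
  obtain ⟨c, hc⟩ := h
  refine ⟨fun v => Fin.castLE hw (c v), fun i hi => ?_⟩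
  obtain ⟨x, hx⟩ := hi
  have h1 : ∃ j, Fin.castLE hw j = i := by
    obtain ⟨y, hxy, -⟩ := Relation.TransGen.head'_iff.1 hx
    exact ⟨c x, hxy.1⟩
  obtain ⟨j, rfl⟩ := h1
  refine hc j ⟨x, Relation.TransGen.mono (fun a b hab => ?_) _ _ hx⟩
  exact ⟨Fin.castLE_injective hw hab.1, Fin.castLE_injective hw hab.2.1, hab.2.2⟩

theorem dicolorable_dichromatic (D : Dig) : Dicolorable D (dichromatic D) := by
  have := D.fin
  apply Nat.sInf_mem (s := {w | Dicolorable D w})
  obtain ⟨e⟩ : Nonempty (D.V ≃ Fin (Nat.card D.V)) := ⟨Finite.equivFin D.V⟩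
  refine ⟨Nat.card D.V, e, fun i hi => ?_⟩
  obtain ⟨x, hx⟩ := hi
  obtain ⟨y, hxy, -⟩ := Relation.TransGen.head'_iff.1 hx
  have h1 : e x = i := hxy.1
  have h2 : e y = i := hxy.2.1
  have h3 : x = y := e.injective (h1.trans h2.symm)
  exact D.irr x (by
    have h4 := hxy.2.2
    rwa [← h3] at h4)

theorem le_dichromatic {D : Dig} {k : ℕ} (h : ¬ Dicolorable D (k - 1)) : k ≤ dichromatic D := by
  by_contra hlt
  exact h (dicolorable_mono (dicolorable_dichromatic D) (by omega))

theorem one_le_dichromatic {D : Dig} (h : Nonempty D.V) : 1 ≤ dichromatic D := by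
  by_contra hlt
  have h0 : dichromatic D = 0 := by omega
  have h1 := dicolorable_dichromatic D
  rw [h0] at h1
  obtain ⟨c, -⟩ := h1
  obtain ⟨x⟩ := h
  exact (c x).elim0

theorem nonempty_of_dichromatic {D : Dig} (h : 1 ≤ dichromatic D) : Nonempty D.V := by
  by_contra hne
  rw [not_nonempty_iff] at hne
  have h1 : Dicolorable D 0 := ⟨fun v => (hne.false v).elim, fun i => i.elim0⟩
  have h2 : dichromatic D ≤ 0 := Nat.sInf_le h1
  omega

theorem dicolorable_of_blow {D : Dig} {r : ℕ} {R : Fin r → Fin r → Prop} {π : D.V → Fin r}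
    (hR : ∀ x y, π x ≠ π y → (D.adj x y ↔ R (π x) (π y))) {c : Fin r → ℕ} {K w : ℕ}
    (hc : ∀ q, c q ≤ K) (hd : ∀ q, Dicolorable (part D π q) (c q))
    (hG : Dicolorable (blow R c K) w) : Dicolorable D w := by
  obtain ⟨g, hg⟩ := hG
  choose d hd using hd
  -- different vertices of one clique have different colours
  have hinj : ∀ u v : (blow R c K).V, u.1.1 = v.1.1 → g u = g v → u = v := by
    intro u v h1 h2
    by_contra hne
    have h3 : u.1.2 ≠ v.1.2 := fun h3 => hne (Subtype.ext (Prod.ext h1 h3))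
    apply hg (g u)
    refine ⟨u, Relation.TransGen.tail (Relation.TransGen.single (b := v) ?_) ?_⟩
    · exact ⟨rfl, h2.symm, Or.inr ⟨h1, h3⟩⟩
    · exact ⟨h2.symm, rfl, Or.inr ⟨h1.symm, h3.symm⟩⟩
  let γ : D.V → (blow R c K).V := fun x =>
    ⟨(π x, ⟨(d (π x) ⟨x, rfl⟩).1, lt_of_lt_of_le (d (π x) ⟨x, rfl⟩).2 (hc _)⟩),
      (d (π x) ⟨x, rfl⟩).2⟩
  refine ⟨fun x => g (γ x), fun i hi => ?_⟩
  obtain ⟨x, hx⟩ := hi
  have hstep : ∀ a b, π a = π b → g (γ a) = i → g (γ b) = i → γ a = γ b := fun a b h1 h2 h3 =>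
    hinj _ _ h1 (h2.trans h3.symm)
  let s : D.V → D.V → Prop := fun a b => π a = π b ∧ g (γ a) = i ∧ g (γ b) = i ∧ D.adj a b
  let rG : (blow R c K).V → (blow R c K).V → Prop := fun u v =>
    u ∈ {v | g v = i} ∧ v ∈ {v | g v = i} ∧ (blow R c K).adj u v
  have hs : ∀ a b, Relation.TransGen s a b → γ a = γ b := by
    intro a b hab
    induction hab with
    | single h => exact hstep _ _ h.1 h.2.1 h.2.2.1
    | tail _ h ih => exact ih.trans (hstep _ _ h.1 h.2.1 h.2.2.1)
  have hrG : ∀ a b, π a ≠ π b → g (γ a) = i → g (γ b) = i → D.adj a b → rG (γ a) (γ b) :=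
    fun a b h1 h2 h3 h4 => ⟨h2, h3, Or.inl ⟨h1, (hR a b h1).1 h4⟩⟩
  have key : ∀ b, Relation.TransGen
      (fun a b => a ∈ {v | g (γ v) = i} ∧ b ∈ {v | g (γ v) = i} ∧ D.adj a b) x b →
      Relation.TransGen s x b ∨ Relation.TransGen rG (γ x) (γ b) := by
    intro b hb
    induction hb with
    | @single b' h =>
      by_cases h1 : π x = π b'
      · exact Or.inl (Relation.TransGen.single ⟨h1, h.1, h.2.1, h.2.2⟩)
      · exact Or.inr (Relation.TransGen.single (hrG _ _ h1 h.1 h.2.1 h.2.2))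
    | @tail b' c' _ h ih =>
      by_cases h1 : π b' = π c'
      · rcases ih with ih | ih
        · exact Or.inl (ih.tail ⟨h1, h.1, h.2.1, h.2.2⟩)
        · right
          rw [← hstep b' c' h1 h.1 h.2.1]
          exact ih
      · right
        have h2 := hrG _ _ h1 h.1 h.2.1 h.2.2
        rcases ih with ih | ih
        · rw [hs _ _ ih]
          exact Relation.TransGen.single h2
        · exact ih.tail h2
  rcases key x hx with h1 | h1
  · -- a cycle inside a part
    have hsub : ∀ b, Relation.TransGen s x b → ∃ hb : π b = π x,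
        Relation.TransGen (fun a b => a ∈ {v | d (π x) v = d (π x) ⟨x, rfl⟩} ∧
          b ∈ {v | d (π x) v = d (π x) ⟨x, rfl⟩} ∧ (part D π (π x)).adj a b)
          ⟨x, rfl⟩ ⟨b, hb⟩ := by
      have hcol : ∀ b (hb : π b = π x), γ b = γ x →
          d (π x) ⟨b, hb⟩ = d (π x) ⟨x, rfl⟩ := by
        intro b hb h
        have h2 := congrArg (fun v : (blow R c K).V => v.1.2.1) h
        have h3 : (d (π b) ⟨b, rfl⟩).1 = (d (π x) ⟨x, rfl⟩).1 := h2
        have h4 : ∀ (q : Fin r) (hq : π b = q), (d q ⟨b, hq⟩).1 = (d (π b) ⟨b, rfl⟩).1 := by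
          intro q hq
          subst hq
          rfl
        exact Fin.ext ((h4 _ hb).trans h3)
      intro b hb
      induction hb with
      | single h =>
        refine ⟨h.1.symm, Relation.TransGen.single ⟨rfl, ?_, h.2.2.2⟩⟩
        exact hcol _ _ (hstep _ _ h.1 h.2.1 h.2.2.1).symm
      | @tail b' c' hb' h ih =>
        obtain ⟨e1, e2⟩ := ih
        have h5 : γ b' = γ x := (hs _ _ hb').symm
        have h6 : γ c' = γ x := (hstep _ _ h.1 h.2.1 h.2.2.1).symm.trans h5
        exact ⟨h.1.symm.trans e1, e2.tail ⟨hcol _ _ h5, hcol _ _ h6, h.2.2.2⟩⟩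
    obtain ⟨hb, h2⟩ := hsub x h1
    exact hd (π x) _ ⟨_, h2⟩
  · exact hg i ⟨_, h1⟩

end HM71
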