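import Pool.Agent.HM71.DD
import Pool.Agent.HM71.Chi
import Pool.Agent.H3P.Fin

/-!
# HM71/Base : digraphs with dichromatic number at most three
-/

namespace HM71

open HJ71

theorem cost_one {W : Type} {H : W → W → Prop} (x : W) : Cost 1 0 H := by
  refine ⟨[⟨W, H⟩], 0, DD.base ⟨W, H⟩ (fun _ => x) DD.nil (fun i j hij => ?_), le_rfl,
    ⟨_, List.mem_cons_self, id, fun _ _ h => h⟩⟩
  exact absurd (Subsingleton.elim i j) hij

theorem cost_loop {k : ℕ} {W : Type} {H : W → W → Prop} {x : W} (hx : H x x) : Cost k 0 H :=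
  ⟨[⟨W, H⟩], 0, DD.base ⟨W, H⟩ (fun _ => x) DD.nil (fun _ _ _ => hx), le_rfl,
    ⟨_, List.mem_cons_self, id, fun _ _ h => h⟩⟩

theorem cost_short {W : Type} {H : W → W → Prop} {a b c : W} {C : ℕ} (h1 : H a c) (h2 : H c b)
    (h : Cost 2 C (Add H a b)) : Cost 2 (C + 1) H := by
  obtain ⟨l, m, g1, g2, g3⟩ := h
  let T0 : Tgt := ⟨Fin 2, fun i j => i ≠ j⟩
  have h3 : DD 2 (T0 :: l) m := DD.base T0 id g1 (fun i j hij => hij)
  have h4 : CloT (T0 :: l) (Add H b c) := by
    refine ⟨T0, List.mem_cons_self, fun i : Fin 2 => if i = 0 then b else c, ?_⟩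
    intro (i : Fin 2) (j : Fin 2) hij
    have hi : i = 0 ∨ i = 1 := by omega
    have hj : j = 0 ∨ j = 1 := by omega
    rcases hi with rfl | rfl <;> rcases hj with rfl | rfl
    · exact absurd rfl hij
    · exact Or.inr ⟨rfl, rfl⟩
    · exact Or.inl h2
    · exact absurd rfl hij
  exact ⟨⟨W, H⟩ :: T0 :: l, m + 1, DD.cut ⟨W, H⟩ a b c h3 h1
    (g3.sub fun T hT => List.mem_cons_of_mem _ hT) h4, by omega,
    ⟨_, List.mem_cons_self, id, fun _ _ h => h⟩⟩

/-- a closed walk of length `L + 1` closes with `L` cuts, `k = 2` -/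
theorem cost_walk (L : ℕ) : ∀ {W : Type} {H : W → W → Prop} (f : ℕ → W),
    (∀ i < L + 1, H (f i) (f (i + 1))) → f (L + 1) = f 0 → Cost 2 L H := by
  induction L with
  | zero =>
    intro W H f h1 h2
    have h3 := h1 0 (by omega)
    rw [h2] at h3
    exact cost_loop h3
  | succ L ih =>
    intro W H f h1 h2
    apply cost_short (h1 0 (by omega)) (h1 1 (by omega))
    refine ih (fun i => if i = 0 then f 0 else f (i + 1)) ?_ ?_
    · intro i hi
      by_cases h0 : i = 0
      · subst h0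
        exact Or.inr ⟨rfl, rfl⟩
      · refine Or.inl ?_
        show H (if i = 0 then f 0 else f (i + 1)) (if i + 1 = 0 then f 0 else f (i + 1 + 1))
        rw [if_neg h0, if_neg (by omega)]
        exact h1 (i + 1) (by omega)
    · show (if L + 1 = 0 then f 0 else f (L + 1 + 1)) = f 0
      rw [if_neg (by omega)]
      exact h2

theorem cost_two {D : Dig} (hD : 2 ≤ dichromatic D) : Cost 2 (Nat.card D.V) D.adj := by
  classical
  have := D.fin
  have hnd : ¬ Dicolorable D 1 := not_dicolorable (by norm_num) hD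
  have hcyc : ∃ x, Relation.TransGen D.adj x x := by
    by_contra hcon
    apply hnd
    refine ⟨fun _ => 0, fun i hi => ?_⟩
    obtain ⟨x, hx⟩ := hi
    exact hcon ⟨x, Relation.TransGen.mono (fun a b hab => hab.2.2) _ _ hx⟩
  obtain ⟨x0, hx0⟩ := hcyc
  have hnext : ∀ y : {y : D.V // Relation.TransGen D.adj y y},
      ∃ z : {y : D.V // Relation.TransGen D.adj y y}, D.adj y.1 z.1 := by
    rintro ⟨y, hy⟩
    obtain ⟨z, hyz, hzy⟩ := Relation.TransGen.head'_iff.1 hy
    exact ⟨⟨z, Relation.TransGen.tail' hzy hyz⟩, hyz⟩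
  choose g hg using hnext
  let f : ℕ → D.V := fun i => (g^[i] ⟨x0, hx0⟩).1
  have hf : ∀ i, D.adj (f i) (f (i + 1)) := by
    intro i
    have h1 : f (i + 1) = (g (g^[i] ⟨x0, hx0⟩)).1 := by
      show (g^[i + 1] ⟨x0, hx0⟩).1 = _
      rw [Function.iterate_succ_apply']
    rw [h1]
    exact hg _
  have : Fintype D.V := Fintype.ofFinite _
  obtain ⟨i, j, hij, hfij⟩ : ∃ i j : Fin (Nat.card D.V + 1), i ≠ j ∧ f i = f j := by
    by_contra hcon
    push Not at hcon
    have hinj : Function.Injective (fun i : Fin (Nat.card D.V + 1) => f i) := by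
      intro i j h
      by_contra hne
      exact hcon i j hne h
    have h2 := Nat.card_le_card_of_injective _ hinj
    rw [Nat.card_fin] at h2
    omega
  have key : ∀ i j : ℕ, i < j → j ≤ Nat.card D.V → f i = f j → Cost 2 (Nat.card D.V) D.adj := by
    intro i j h1 h2 h3
    have h4 := cost_walk (j - i - 1) (H := D.adj) (fun t => f (i + t))
      (fun t _ => hf (i + t)) (by
        show f (i + (j - i - 1 + 1)) = f (i + 0)
        rw [show i + (j - i - 1 + 1) = j by omega, add_zero, h3])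
    exact h4.up (by omega)
  have hi := i.isLt
  have hj := j.isLt
  have hne : (i : ℕ) ≠ (j : ℕ) := fun h => hij (Fin.ext h)
  rcases Nat.lt_or_gt_of_ne hne with h | h
  · exact key i j h (by omega) hfij
  · exact key j i h (by omega) hfij.symm

/-- the case of dichromatic number at most three -/
theorem cost_three {D : Dig} {j : ℕ} (h1 : 1 ≤ j) (hj : j ≤ dichromatic D)
    (h3 : dichromatic D ≤ 3) : Cost j (14000 * (Nat.card D.V + 1) ^ 9) D.adj := by
  have h0 : j = 1 ∨ j = 2 ∨ j = 3 := by omega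
  rcases h0 with rfl | rfl | rfl
  · obtain ⟨x⟩ := nonempty_of_dichromatic hj
    exact (cost_one x).up (Nat.zero_le _)
  · refine (cost_two hj).up ?_
    have h2 : Nat.card D.V + 1 ≤ (Nat.card D.V + 1) ^ 9 := Nat.le_self_pow (by norm_num) _
    omega
  · obtain ⟨H, g1, g2⟩ := H3P.final D hj
    exact Cost.of_constructible g1 g2

end HM71
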