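import Pool.Agent.HM71.Core

/-!
# HM71/DD : derivations of targets by cuts

`DD k l m`: the targets of the list `l` are derived, in the system for `k`, with `m` cuts; homomorphic images are free.
* `DD.realize`: a derivation with `m` cuts gives a construction with at most `5 m` operations.
* `DD.of_steps`: a construction with `m` operations gives a derivation with at most `m` cuts.
* `DD.ctx`: a derivation in the system for `k'` can be run inside a context.
-/

namespace HM71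

open HJ71

/-- a target -/
structure Tgt where
  W : Type
  r : W → W → Prop

/-- some target of `l` has a homomorphism to `H` -/
def CloT (l : List Tgt) {W : Type} (H : W → W → Prop) : Prop :=
  ∃ T ∈ l, ∃ φ : T.W → W, ∀ a b, T.r a b → H (φ a) (φ b)

theorem CloT.hom {l : List Tgt} {W W' : Type} {H : W → W → Prop} {H' : W' → W' → Prop}
    (h : CloT l H) (f : W → W') (hf : ∀ x y, H x y → H' (f x) (f y)) : CloT l H' := by
  obtain ⟨T, hT, φ, hφ⟩ := h
  exact ⟨T, hT, f ∘ φ, fun a b hab => hf _ _ (hφ a b hab)⟩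

theorem CloT.sub {l l' : List Tgt} {W : Type} {H : W → W → Prop} (h : CloT l H)
    (hl : ∀ T ∈ l, T ∈ l') : CloT l' H := by
  obtain ⟨T, hT, φ, hφ⟩ := h
  exact ⟨T, hl T hT, φ, hφ⟩

/-- derivations of targets with `m` cuts -/
inductive DD (k : ℕ) : List Tgt → ℕ → Prop
  | nil : DD k [] 0
  | base {l : List Tgt} {m : ℕ} (T : Tgt) (f : Fin k → T.W) :
      DD k l m → (∀ i j, i ≠ j → T.r (f i) (f j)) → DD k (T :: l) m
  | cut {l : List Tgt} {m : ℕ} (T : Tgt) (a b c : T.W) :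
      DD k l m → T.r a c → CloT l (Add T.r a b) → CloT l (Add T.r b c) → DD k (T :: l) (m + 1)

theorem DD.realize {k : ℕ} {l : List Tgt} {m : ℕ} (h : DD k l m) :
    ∃ (l' : List Dig) (m' : ℕ), Steps k l' m' ∧ Bas k l' ∧ m' ≤ 5 * m ∧ ∀ T ∈ l, Clo l' T.r := by
  induction h with
  | nil =>
    let T0 : Dig := ⟨Fin k, inferInstance, fun x y => x ≠ y, fun v h => h rfl⟩
    have hT0 : IsComplete k T0 := ⟨by simp [T0], fun _ _ => Iff.rfl⟩
    exact ⟨[T0], 0, Steps.base T0 Steps.nil hT0, ⟨T0, List.mem_cons_self, hT0⟩, by omega,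
      fun T hT => absurd hT (List.not_mem_nil)⟩
  | @base l m T f _ hf ih =>
    obtain ⟨l', m', h1, h2, h3, h4⟩ := ih
    refine ⟨l', m', h1, h2, h3, fun S hS => ?_⟩
    rcases List.mem_cons.1 hS with rfl | hS
    · obtain ⟨B, hB, hc, ha⟩ := h2
      have := B.fin
      obtain ⟨e⟩ : Nonempty (B.V ≃ Fin k) := ⟨Finite.equivFinOfCardEq hc⟩
      exact ⟨B, hB, fun v => f (e v), fun a b hab =>
        hf _ _ fun h => (ha a b).1 hab (e.injective h)⟩
    · exact h4 S hS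
  | @cut l m T a b c _ hac hab hbc ih =>
    obtain ⟨l', m', h1, h2, h3, h4⟩ := ih
    have key : ∀ {H : T.W → T.W → Prop}, CloT l H → Clo l' H := by
      rintro H ⟨S, hS, φ, hφ⟩
      exact (h4 S hS).hom φ hφ
    obtain ⟨l'', e, hc⟩ := cut_run h2 hac (key hab) (key hbc)
    obtain ⟨m'', g1, g2⟩ := e.2 m' h1
    refine ⟨l'', m'', g1, h2.ext e, by omega, fun S hS => ?_⟩
    rcases List.mem_cons.1 hS with rfl | hS
    · exact hc
    · exact (h4 S hS).sub e.1

theorem DD.of_steps {k : ℕ} {l : List Dig} {m : ℕ} (h : Steps k l m) :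
    ∃ (l' : List Tgt) (m' : ℕ), DD k l' m' ∧ m' ≤ m ∧ ∀ T ∈ l, CloT l' T.adj := by
  induction h with
  | nil => exact ⟨[], 0, DD.nil, le_rfl, fun T hT => absurd hT (List.not_mem_nil)⟩
  | @base l m D _ hD ih =>
    obtain ⟨l', m', h1, h2, h3⟩ := ih
    have := D.fin
    obtain ⟨e⟩ : Nonempty (D.V ≃ Fin k) := ⟨Finite.equivFinOfCardEq hD.1⟩
    refine ⟨⟨D.V, D.adj⟩ :: l', m', DD.base _ e.symm h1 (fun i j hij => (hD.2 _ _).2
      fun h => hij (e.symm.injective h)), h2, fun S hS => ?_⟩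
    rcases List.mem_cons.1 hS with rfl | hS
    · exact ⟨_, List.mem_cons_self, id, fun _ _ h => h⟩
    · exact (h3 S hS).sub fun T hT => List.mem_cons_of_mem _ hT
  | @join l m A B C _ hA hB hC ih =>
    obtain ⟨l', m', h1, h2, h3⟩ := ih
    obtain ⟨u₁, v₁, v₂, u₂, f, g, huv, hvu, hf, hg, hfg, -, hadj⟩ := hC
    have hm : f v₁ = g v₂ := (hfg _ _).2 ⟨rfl, rfl⟩
    have hac : C.adj (f u₁) (g u₂) := (hadj _ _).2 (Or.inr (Or.inr ⟨rfl, rfl⟩))
    have hA' : CloT l' (Add C.adj (f u₁) (f v₁)) := by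
      refine (h3 A hA).hom f fun x y hxy => ?_
      by_cases h : x = u₁ ∧ y = v₁
      · exact Or.inr ⟨by rw [h.1], by rw [h.2]⟩
      · exact Or.inl ((hadj _ _).2 (Or.inl ⟨x, y, rfl, rfl, hxy, h⟩))
    have hB' : CloT l' (Add C.adj (f v₁) (g u₂)) := by
      refine (h3 B hB).hom g fun x y hxy => ?_
      by_cases h : x = v₂ ∧ y = u₂
      · exact Or.inr ⟨by rw [h.1, hm], by rw [h.2]⟩
      · exact Or.inl ((hadj _ _).2 (Or.inr (Or.inl ⟨x, y, rfl, rfl, hxy, h⟩)))
    refine ⟨⟨C.V, C.adj⟩ :: l', m' + 1, DD.cut ⟨C.V, C.adj⟩ (f u₁) (f v₁) (g u₂) h1 hac hA' hB',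
      by omega, fun S hS => ?_⟩
    rcases List.mem_cons.1 hS with rfl | hS
    · exact ⟨_, List.mem_cons_self, id, fun _ _ h => h⟩
    · exact (h3 S hS).sub fun T hT => List.mem_cons_of_mem _ hT
  | @ident l m A C _ hA hC ih =>
    obtain ⟨l', m', h1, h2, h3⟩ := ih
    refine ⟨l', m', h1, by omega, fun S hS => ?_⟩
    rcases List.mem_cons.1 hS with rfl | hS
    · obtain ⟨I, f, -, -, -, -, hadj⟩ := hC
      exact (h3 A hA).hom f fun x y hxy => (hadj _ _).2 ⟨x, y, rfl, rfl, hxy⟩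
    · exact h3 S hS

/-- a target inside a context: `E` on the context, `I u`: arcs from `u` to the module, `O u`: arcs
from the module to `u` -/
def Ctx {A : Type} (E : A → A → Prop) (I O : A → Prop) {W : Type} (H : W → W → Prop) :
    A ⊕ W → A ⊕ W → Prop
  | Sum.inl u, Sum.inl v => E u v
  | Sum.inl u, Sum.inr _ => I u
  | Sum.inr _, Sum.inl v => O v
  | Sum.inr x, Sum.inr y => H x y

theorem Ctx.hom {A : Type} {E : A → A → Prop} {I O : A → Prop} {W W' : Type}
    {H : W → W → Prop} {H' : W' → W' → Prop} (f : W → W')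
    (hf : ∀ x y, H x y → H' (f x) (f y)) (x y : A ⊕ W) (h : Ctx E I O H x y) :
    Ctx E I O H' (Sum.map id f x) (Sum.map id f y) := by
  rcases x with u | x <;> rcases y with v | y
  · exact h
  · exact h
  · exact h
  · exact hf x y h

theorem Ctx.add {A : Type} {E : A → A → Prop} {I O : A → Prop} {W : Type} {H : W → W → Prop}
    {a b : W} (x y : A ⊕ W) (h : Ctx E I O (Add H a b) x y) :
    Add (Ctx E I O H) (Sum.inr a) (Sum.inr b) x y := by
  rcases x with u | x <;> rcases y with v | y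
  · exact Or.inl h
  · exact Or.inl h
  · exact Or.inl h
  · rcases h with h | ⟨rfl, rfl⟩
    · exact Or.inl h
    · exact Or.inr ⟨rfl, rfl⟩

/-- a derivation of the system for `k'` run inside a context in which the complete digraph on `k'`
vertices is already derived -/
theorem DD.ctx {k k' : ℕ} {l' : List Tgt} {m' : ℕ} (h : DD k' l' m') {A : Type}
    (E : A → A → Prop) (I O : A → Prop) {l : List Tgt} {m : ℕ} (hl : DD k l m)
    (hK : CloT l (Ctx E I O (fun i j : Fin k' => i ≠ j))) :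
    ∃ l'' , DD k l'' (m + m') ∧ (∀ T ∈ l, T ∈ l'') ∧ ∀ T ∈ l', CloT l'' (Ctx E I O T.r) := by
  induction h with
  | nil => exact ⟨l, hl, fun T h => h, fun T hT => absurd hT (List.not_mem_nil)⟩
  | @base l' m' T f _ hf ih =>
    obtain ⟨l'', h1, h2, h3⟩ := ih
    refine ⟨l'', h1, h2, fun S hS => ?_⟩
    rcases List.mem_cons.1 hS with rfl | hS
    · exact (hK.sub h2).hom _ (Ctx.hom f fun i j hij => hf i j hij)
    · exact h3 S hS
  | @cut l' m' T a b c _ hac hab hbc ih =>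
    obtain ⟨l'', h1, h2, h3⟩ := ih
    have key : ∀ {H : T.W → T.W → Prop}, CloT l' H → CloT l'' (Ctx E I O H) := by
      rintro H ⟨S, hS, φ, hφ⟩
      exact (h3 S hS).hom _ (Ctx.hom φ hφ)
    refine ⟨⟨A ⊕ T.W, Ctx E I O T.r⟩ :: l'', DD.cut ⟨A ⊕ T.W, Ctx E I O T.r⟩ (Sum.inr a)
      (Sum.inr b) (Sum.inr c) h1 hac ((key hab).hom id Ctx.add) ((key hbc).hom id Ctx.add),
      fun S hS => List.mem_cons_of_mem _ (h2 S hS), fun S hS => ?_⟩
    rcases List.mem_cons.1 hS with rfl | hS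
    · exact ⟨_, List.mem_cons_self, id, fun _ _ h => h⟩
    · exact (h3 S hS).sub fun T hT => List.mem_cons_of_mem _ hT

/-- `H` can be derived with at most `c` cuts -/
def Cost (k c : ℕ) {W : Type} (H : W → W → Prop) : Prop :=
  ∃ l m, DD k l m ∧ m ≤ c ∧ CloT l H

theorem Cost.hom {k c : ℕ} {W W' : Type} {H : W → W → Prop} {H' : W' → W' → Prop}
    (h : Cost k c H) (f : W → W') (hf : ∀ x y, H x y → H' (f x) (f y)) : Cost k c H' := by
  obtain ⟨l, m, h1, h2, h3⟩ := h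
  exact ⟨l, m, h1, h2, h3.hom f hf⟩

theorem Cost.up {k c c' : ℕ} {W : Type} {H : W → W → Prop} (h : Cost k c H) (hc : c ≤ c') :
    Cost k c' H := by
  obtain ⟨l, m, h1, h2, h3⟩ := h
  exact ⟨l, m, h1, h2.trans hc, h3⟩

theorem Cost.ctx {k k' c c' : ℕ} {A : Type} {E : A → A → Prop} {I O : A → Prop} {W : Type}
    {H : W → W → Prop} (h : Cost k' c' H) (hK : Cost k c (Ctx E I O (fun i j : Fin k' => i ≠ j))) :
    Cost k (c + c') (Ctx E I O H) := by
  obtain ⟨l', m', h1, h2, T, hT, φ, hφ⟩ := h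
  obtain ⟨l, m, g1, g2, g3⟩ := hK
  obtain ⟨l'', f1, _, f3⟩ := h1.ctx E I O g1 g3
  exact ⟨l'', m + m', f1, by omega, (f3 T hT).hom _ (Ctx.hom φ hφ)⟩

theorem Cost.of_constructible {k L : ℕ} {H D : Dig} (hs : IsSub H D) (h : ConstructibleIn k L H) :
    Cost k L D.adj := by
  obtain ⟨T, l, m, h1, h2, e, he⟩ := h
  obtain ⟨φ, -, hφ⟩ := hs
  obtain ⟨l', m', g1, g2, g3⟩ := DD.of_steps h1
  exact ⟨l', m', g1, g2.trans h2, (g3 T List.mem_cons_self).hom (fun x => φ (e x))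
    fun x y hxy => hφ _ _ ((he x y).1 hxy)⟩

theorem Cost.constructible {k c : ℕ} {D : Dig} (h : Cost k c D.adj) :
    ∃ H : Dig, IsSub H D ∧ ConstructibleIn k (5 * c + Nat.card D.V) H := by
  classical
  have := D.fin
  obtain ⟨l, m, h1, h2, T0, hT0, φ0, hφ0⟩ := h
  obtain ⟨l1, m1, st1, -, hm1, c1⟩ := h1.realize
  obtain ⟨T, hT, φ, hφ⟩ := (c1 T0 hT0).hom φ0 hφ0
  obtain ⟨e⟩ : Nonempty (D.V ≃ Fin (Nat.card D.V)) := ⟨Finite.equivFin D.V⟩
  obtain ⟨l2, m2, st2, _, hm2, T', hT', ψ, hψ, hψE⟩ := merge_all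
    (fun a b => D.adj (e.symm a) (e.symm b)) (fun a => D.irr _) l1 m1 st1 T hT (fun v => e (φ v))
    (fun a b hab => by simpa using hφ a b hab)
  obtain ⟨l3, m3, st3, hm3⟩ := steps_suffix st2 T' hT'
  refine ⟨T', ⟨fun a => e.symm (ψ a), e.symm.injective.comp hψ, fun x y hxy => hψE x y hxy⟩,
    T', l3, m3, st3, ?_, Equiv.refl _, fun _ _ => Iff.rfl⟩
  omega

end HM71
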