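import Pool.Agent.HJ71.Cnt
import Pool.Agent.HJ71.Fin
import Pool.Agent.HM71.DD
import Pool.Agent.HM71.Chi

/-!
# HM71/Expl : the explicit bound for all digraphs, as a cost
-/

namespace HM71

open HJ71

/-- every digraph on `n` vertices with dichromatic number at least `k` -/
theorem explicit {k : ℕ} (hk : 1 ≤ k) (D : Dig) (hD : k ≤ dichromatic D) :
    ∃ H : Dig, IsSub H D ∧
      ConstructibleIn k ((Nat.card D.V + 1) ^ (2 * (k - 1) * Nat.card D.V + 6)) H := by
  have := D.fin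
  have hnd := not_dicolorable hk hD
  obtain ⟨e⟩ : Nonempty (D.V ≃ Fin (Nat.card D.V)) := ⟨Finite.equivFin D.V⟩
  have hn : 0 < Nat.card D.V := by
    have := nonempty_of_dichromatic (hk.trans hD)
    exact Nat.card_pos
  generalize hN : Nat.card D.V = n at *
  let D' : Cl n := fun a b => D.adj (e.symm a) (e.symm b)
  obtain ⟨l, m, h1, h2, E, hE, hED⟩ := labelled_bound (k := k) (w := k - 1) (by omega) (D := D')
    hn (fun a => D.irr _) (fun R hr ht hR => exists_anti hk D e hnd R hr ht hR)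
  obtain ⟨l', m', g1, g2, g3⟩ := realize h1
  obtain ⟨T, hT, φ, hφ, hφE⟩ := g3 E hE
  obtain ⟨l'', m'', f1, f2⟩ := steps_suffix g1 T hT
  refine ⟨T, ⟨fun a => e.symm (φ a), e.symm.injective.comp hφ, ?_⟩, T, l'', m'', f1, ?_,
    Equiv.refl _, fun _ _ => Iff.rfl⟩
  · intro x y hxy
    exact hED _ _ (hφE x y hxy)
  · calc m'' ≤ m' := f2
      _ ≤ (n + 1) * m := g2
      _ ≤ (n + 1) * ((n * (n * (2 * n)) + 2 * n + 1) * (n * (n + 1) ^ (2 * (k - 1) * n))) :=
          Nat.mul_le_mul_left _ h2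
      _ ≤ (n + 1) ^ (2 * (k - 1) * n + 6) := arith n (k - 1)

theorem cost_explicit {k N : ℕ} (hk : 1 ≤ k) {D : Dig} (hD : k ≤ dichromatic D)
    (hN : Nat.card D.V ≤ N) : Cost k ((N + 1) ^ (2 * (k - 1) * N + 6)) D.adj := by
  obtain ⟨H, h1, h2⟩ := explicit hk D hD
  refine (Cost.of_constructible h1 h2).up ?_
  calc (Nat.card D.V + 1) ^ (2 * (k - 1) * Nat.card D.V + 6)
      ≤ (N + 1) ^ (2 * (k - 1) * Nat.card D.V + 6) := Nat.pow_le_pow_left (by omega) _
    _ ≤ (N + 1) ^ (2 * (k - 1) * N + 6) := by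
        apply Nat.pow_le_pow_right (by omega)
        have := Nat.mul_le_mul_left (2 * (k - 1)) hN
        omega

end HM71
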