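import Pool.Agent.HM71.Chi

/-!
# HM71/Glue : one-way unions and unions along complete digraphs

`dicolorable_oneway`: no arc leaves `S`. `dicolorable_glue`: `A ∪ B` is everything, there is no arc between a vertex
outside `B` and a vertex outside `A`, and `A ∩ B` induces a complete digraph.
-/

namespace HM71

open HJ71

/-- the subdigraph induced by `S` -/
def ind (D : Dig) (S : Set D.V) : Dig where
  V := {x : D.V // x ∈ S}
  fin := by
    have := D.fin
    infer_instance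
  adj x y := D.adj x.1 y.1
  irr x := D.irr x.1

/-- a closed walk which stays in `S` -/
theorem hasCycle_ind {D : Dig} {S : Set D.V} {w : ℕ} {c : (ind D S).V → Fin w} {i : Fin w}
    {r : D.V → D.V → Prop}
    (hr : ∀ a b, r a b → ∃ (ha : a ∈ S) (hb : b ∈ S), c ⟨a, ha⟩ = i ∧ c ⟨b, hb⟩ = i ∧ D.adj a b)
    {x : D.V} (hx : Relation.TransGen r x x) : HasCycle (ind D S) {v | c v = i} := by
  have hxS : x ∈ S := by
    obtain ⟨y, hxy, -⟩ := Relation.TransGen.head'_iff.1 hx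
    exact (hr _ _ hxy).1
  have key : ∀ b, Relation.TransGen r x b → ∃ hb : b ∈ S,
      Relation.TransGen (fun a b => a ∈ {v | c v = i} ∧ b ∈ {v | c v = i} ∧ (ind D S).adj a b)
        ⟨x, hxS⟩ ⟨b, hb⟩ := by
    intro b hb
    induction hb with
    | single h =>
      obtain ⟨_, h2, h3, h4, h5⟩ := hr _ _ h
      exact ⟨h2, Relation.TransGen.single ⟨h3, h4, h5⟩⟩
    | tail _ h ih =>
      obtain ⟨_, e2⟩ := ih
      obtain ⟨_, h2, h3, h4, h5⟩ := hr _ _ h
      exact ⟨h2, e2.tail ⟨h3, h4, h5⟩⟩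
  obtain ⟨_, h1⟩ := key x hx
  exact ⟨_, h1⟩

theorem dicolorable_oneway {D : Dig} {S : Set D.V} {w : ℕ}
    (hS : ∀ x y, x ∈ S → y ∉ S → ¬ D.adj x y) (h1 : Dicolorable (ind D S) w)
    (h2 : Dicolorable (ind D Sᶜ) w) : Dicolorable D w := by
  classical
  obtain ⟨c1, h1⟩ := h1
  obtain ⟨c2, h2⟩ := h2
  let c : D.V → Fin w := fun x => if h : x ∈ S then c1 ⟨x, h⟩ else c2 ⟨x, h⟩
  have hc1 : ∀ x (h : x ∈ S), c x = c1 ⟨x, h⟩ := fun x h => dif_pos h
  have hc2 : ∀ x (h : x ∉ S), c x = c2 ⟨x, h⟩ := fun x h => dif_neg h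
  refine ⟨c, fun i hi => ?_⟩
  obtain ⟨x, hx⟩ := hi
  let r : D.V → D.V → Prop := fun a b => a ∈ {v | c v = i} ∧ b ∈ {v | c v = i} ∧ D.adj a b
  -- a walk from a vertex of `S` stays in `S`
  have hin : ∀ a b, Relation.TransGen r a b → a ∈ S →
      b ∈ S ∧ Relation.TransGen (fun a b => a ∈ S ∧ b ∈ S ∧ r a b) a b := by
    intro a b hab ha
    induction hab with
    | @single b h =>
      have hb : b ∈ S := by
        by_contra hb
        exact hS _ _ ha hb h.2.2
      exact ⟨hb, Relation.TransGen.single ⟨ha, hb, h⟩⟩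
    | @tail b b' _ h ih =>
      have hb' : b' ∈ S := by
        by_contra hb
        exact hS _ _ ih.1 hb h.2.2
      exact ⟨hb', ih.2.tail ⟨ih.1, hb', h⟩⟩
  by_cases hxS : x ∈ S
  · refine h1 i (hasCycle_ind (fun a b hab => ?_) (hin x x hx hxS).2)
    obtain ⟨ha, hb, h3, h4, h5⟩ := hab
    exact ⟨ha, hb, (hc1 a ha).symm.trans h3, (hc1 b hb).symm.trans h4, h5⟩
  · -- the walk never meets `S`
    have hout : ∀ b, Relation.TransGen r x b →
        b ∈ S ∨ Relation.TransGen (fun a b => a ∉ S ∧ b ∉ S ∧ r a b) x b := by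
      intro b hb
      induction hb with
      | @single b h =>
        by_cases hb : b ∈ S
        · exact Or.inl hb
        · exact Or.inr (Relation.TransGen.single ⟨hxS, hb, h⟩)
      | @tail b b' _ h ih =>
        by_cases hb' : b' ∈ S
        · exact Or.inl hb'
        · rcases ih with ih | ih
          · exact absurd h.2.2 (hS _ _ ih hb')
          · have hb : b ∉ S := by
              obtain ⟨z, -, hz⟩ := Relation.TransGen.tail'_iff.1 ih
              exact hz.2.1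
            exact Or.inr (ih.tail ⟨hb, hb', h⟩)
    rcases hout x hx with h | h
    · exact hxS h
    · refine h2 i (hasCycle_ind (fun a b hab => ?_) h)
      obtain ⟨ha, hb, h3, h4, h5⟩ := hab
      exact ⟨ha, hb, (hc2 a ha).symm.trans h3, (hc2 b hb).symm.trans h4, h5⟩

/-- two colourings which are injective on a set agree there after a permutation of the colours -/
theorem exists_perm {V : Type} {w : ℕ} (K : Set V) (f g : V → Fin w)
    (hf : ∀ x ∈ K, ∀ y ∈ K, f x = f y → x = y) (hg : ∀ x ∈ K, ∀ y ∈ K, g x = g y → x = y) :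
    ∃ σ : Equiv.Perm (Fin w), ∀ x ∈ K, σ (g x) = f x := by
  classical
  let s : Finset (Fin w) := Finset.univ.filter (fun j => ∃ x ∈ K, g x = j)
  let φ : Fin w → Fin w := fun j => if h : ∃ x ∈ K, g x = j then f h.choose else j
  have hφ : ∀ x ∈ K, φ (g x) = f x := by
    intro x hx
    have h : ∃ y ∈ K, g y = g x := ⟨x, hx, rfl⟩
    show (if h : ∃ y ∈ K, g y = g x then f h.choose else g x) = f x
    rw [dif_pos h]
    have h2 := h.choose_spec
    rw [hg _ h2.1 x hx h2.2]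
  have hinj : Set.InjOn φ (s : Set (Fin w)) := by
    intro a ha b hb hab
    obtain ⟨x, hx, rfl⟩ := (Finset.mem_filter.1 ha).2
    obtain ⟨y, hy, rfl⟩ := (Finset.mem_filter.1 hb).2
    rw [hφ x hx, hφ y hy] at hab
    rw [hf x hx y hy hab]
  obtain ⟨σ, hσ⟩ := Finset.exists_equiv_extend_of_card_eq (t := (Finset.univ : Finset (Fin w)))
    (by simp) (s := s) (f := φ) (Finset.subset_univ _) hinj
  refine ⟨σ.trans (Equiv.subtypeUnivEquiv (fun x => Finset.mem_univ x)), fun x hx => ?_⟩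
  have h1 := hσ (g x) (Finset.mem_filter.2 ⟨Finset.mem_univ _, x, hx, rfl⟩)
  rw [hφ x hx] at h1
  exact h1

theorem dicolorable_glue {D : Dig} {A B : Set D.V} {w : ℕ} (hAB : ∀ x, x ∈ A ∨ x ∈ B)
    (hno : ∀ x y, x ∉ B → y ∉ A → ¬ D.adj x y ∧ ¬ D.adj y x)
    (hK : ∀ x y, x ∈ A → x ∈ B → y ∈ A → y ∈ B → x ≠ y → D.adj x y)
    (h1 : Dicolorable (ind D A) w) (h2 : Dicolorable (ind D B) w) : Dicolorable D w := by
  classical
  obtain ⟨c1, h1⟩ := h1
  obtain ⟨c2, h2⟩ := h2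
  have hinj : ∀ (S : Set D.V) (c : (ind D S).V → Fin w), (∀ i, ¬ HasCycle (ind D S) {v | c v = i}) →
      ∀ x y (hx : x ∈ S) (hy : y ∈ S), D.adj x y → D.adj y x → c ⟨x, hx⟩ ≠ c ⟨y, hy⟩ := by
    intro S c hc x y hx hy hxy hyx h
    let x' : (ind D S).V := ⟨x, hx⟩
    let y' : (ind D S).V := ⟨y, hy⟩
    have e1 : (ind D S).adj x' y' := hxy
    have e2 : (ind D S).adj y' x' := hyx
    refine hc (c x') ⟨x', Relation.TransGen.tail
      (Relation.TransGen.single (b := y') ⟨rfl, h.symm, e1⟩) ⟨h.symm, rfl, e2⟩⟩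
  by_cases hw : w = 0
  · subst hw
    refine ⟨fun x => ?_, fun i => i.elim0⟩
    exact if h : x ∈ A then c1 ⟨x, h⟩ else c2 ⟨x, (hAB x).resolve_left h⟩
  let i0 : Fin w := ⟨0, Nat.pos_of_ne_zero hw⟩
  let f : D.V → Fin w := fun x => if h : x ∈ A then c1 ⟨x, h⟩ else i0
  let g : D.V → Fin w := fun x => if h : x ∈ B then c2 ⟨x, h⟩ else i0
  have hf : ∀ x (h : x ∈ A), f x = c1 ⟨x, h⟩ := fun x h => dif_pos h
  have hg : ∀ x (h : x ∈ B), g x = c2 ⟨x, h⟩ := fun x h => dif_pos h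
  obtain ⟨σ, hσ⟩ := exists_perm {x | x ∈ A ∧ x ∈ B} f g
    (by
      intro x hx y hy hxy
      by_contra hne
      rw [hf x hx.1, hf y hy.1] at hxy
      exact hinj A c1 h1 x y hx.1 hy.1 (hK x y hx.1 hx.2 hy.1 hy.2 hne)
        (hK y x hy.1 hy.2 hx.1 hx.2 (Ne.symm hne)) hxy)
    (by
      intro x hx y hy hxy
      by_contra hne
      rw [hg x hx.2, hg y hy.2] at hxy
      exact hinj B c2 h2 x y hx.2 hy.2 (hK x y hx.1 hx.2 hy.1 hy.2 hne)
        (hK y x hy.1 hy.2 hx.1 hx.2 (Ne.symm hne)) hxy)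
  let c : D.V → Fin w := fun x => if x ∈ A then f x else σ (g x)
  have hcA : ∀ x, x ∈ A → c x = f x := fun x h => if_pos h
  have hcB : ∀ x, x ∈ B → c x = σ (g x) := by
    intro x hx
    by_cases h : x ∈ A
    · rw [hcA x h]
      exact (hσ x ⟨h, hx⟩).symm
    · exact if_neg h
  refine ⟨c, fun i hi => ?_⟩
  obtain ⟨x, hx⟩ := hi
  let rA : D.V → D.V → Prop := fun a b => a ∈ A ∧ b ∈ A ∧ c a = i ∧ c b = i ∧ D.adj a b
  let rB : D.V → D.V → Prop := fun a b => a ∈ B ∧ b ∈ B ∧ c a = i ∧ c b = i ∧ D.adj a b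
  have nA : ∀ y, ¬ Relation.TransGen rA y y := by
    intro y hy
    refine h1 i (hasCycle_ind (fun a b hab => ?_) hy)
    obtain ⟨ha, hb, h3, h4, h5⟩ := hab
    exact ⟨ha, hb, ((hf a ha).symm.trans (hcA a ha).symm).trans h3,
      ((hf b hb).symm.trans (hcA b hb).symm).trans h4, h5⟩
  have nB : ∀ y, ¬ Relation.TransGen rB y y := by
    intro y hy
    refine h2 (σ.symm i) (hasCycle_ind (fun a b hab => ?_) hy)
    obtain ⟨ha, hb, h3, h4, h5⟩ := hab
    refine ⟨ha, hb, ?_, ?_, h5⟩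
    · rw [← hg a ha, ← h3, hcB a ha, σ.symm_apply_apply]
    · rw [← hg b hb, ← h4, hcB b hb, σ.symm_apply_apply]
  -- at most one vertex of colour `i` in `A ∩ B`
  have huniq : ∀ y z, y ∈ A → y ∈ B → z ∈ A → z ∈ B → c y = i → c z = i → y = z := by
    intro y z hyA hyB hzA hzB hy hz
    by_contra hne
    refine hinj A c1 h1 y z hyA hzA (hK y z hyA hyB hzA hzB hne)
      (hK z y hzA hzB hyA hyB (Ne.symm hne)) ?_
    rw [← hf y hyA, ← hf z hzA, ← hcA y hyA, ← hcA z hzA, hy, hz]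
  have hsplit : ∀ a b, c a = i → c b = i → D.adj a b → rA a b ∨ rB a b := by
    intro a b ha hb hab
    by_cases h3 : a ∈ A ∧ b ∈ A
    · exact Or.inl ⟨h3.1, h3.2, ha, hb, hab⟩
    · right
      have hB : a ∈ B ∧ b ∈ B := by
        by_cases haA : a ∈ A
        · have hbA : b ∉ A := fun h => h3 ⟨haA, h⟩
          have hbB := (hAB b).resolve_left hbA
          refine ⟨?_, hbB⟩
          by_contra haB
          exact (hno a b haB hbA).1 hab
        · have haB := (hAB a).resolve_left haA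
          refine ⟨haB, ?_⟩
          by_contra hbB
          exact (hno b a hbB haA).2 hab
      exact ⟨hB.1, hB.2, ha, hb, hab⟩
  have mA : ∀ a b, Relation.TransGen rA a b → a ∈ A ∧ b ∈ A ∧ c a = i ∧ c b = i := by
    intro a b hab
    obtain ⟨y, hy, -⟩ := Relation.TransGen.head'_iff.1 hab
    obtain ⟨z, -, hz⟩ := Relation.TransGen.tail'_iff.1 hab
    exact ⟨hy.1, hz.2.1, hy.2.2.1, hz.2.2.2.1⟩
  have mB : ∀ a b, Relation.TransGen rB a b → a ∈ B ∧ b ∈ B ∧ c a = i ∧ c b = i := by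
    intro a b hab
    obtain ⟨y, hy, -⟩ := Relation.TransGen.head'_iff.1 hab
    obtain ⟨z, -, hz⟩ := Relation.TransGen.tail'_iff.1 hab
    exact ⟨hy.1, hz.2.1, hy.2.2.1, hz.2.2.2.1⟩
  have key : ∀ b, Relation.TransGen
      (fun a b => a ∈ {v | c v = i} ∧ b ∈ {v | c v = i} ∧ D.adj a b) x b →
      (Relation.TransGen rA x b ∨ Relation.TransGen rB x b) ∨
      ∃ v, v ∈ A ∧ v ∈ B ∧ c v = i ∧
        ((x ∈ A ∧ Relation.TransGen rB v b) ∨ (x ∈ B ∧ Relation.TransGen rA v b)) := by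
    intro b hb
    induction hb with
    | single h =>
      exact Or.inl ((hsplit _ _ h.1 h.2.1 h.2.2).imp (fun h => Relation.TransGen.single h)
        (fun h => Relation.TransGen.single h))
    | @tail b b' _ h ih =>
      rcases hsplit _ _ h.1 h.2.1 h.2.2 with h3 | h3
      · rcases ih with (ih | ih) | ⟨v, hvA, hvB, hv, ⟨hxA, ih⟩ | ⟨hxB, ih⟩⟩
        · exact Or.inl (Or.inl (ih.tail h3))
        · have h4 := mB _ _ ih
          exact Or.inr ⟨b, h3.1, h4.2.1, h.1, Or.inr ⟨h4.1, Relation.TransGen.single h3⟩⟩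
        · exfalso
          have h4 := mB _ _ ih
          have h5 := huniq b v h3.1 h4.2.1 hvA hvB h.1 hv
          rw [h5] at ih
          exact nB v ih
        · exact Or.inr ⟨v, hvA, hvB, hv, Or.inr ⟨hxB, ih.tail h3⟩⟩
      · rcases ih with (ih | ih) | ⟨v, hvA, hvB, hv, ⟨hxA, ih⟩ | ⟨hxB, ih⟩⟩
        · have h4 := mA _ _ ih
          exact Or.inr ⟨b, h4.2.1, h3.1, h.1, Or.inl ⟨h4.1, Relation.TransGen.single h3⟩⟩
        · exact Or.inl (Or.inr (ih.tail h3))
        · exact Or.inr ⟨v, hvA, hvB, hv, Or.inl ⟨hxA, ih.tail h3⟩⟩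
        · exfalso
          have h4 := mA _ _ ih
          have h5 := huniq b v h4.2.1 h3.1 hvA hvB h.1 hv
          rw [h5] at ih
          exact nA v ih
  rcases key x hx with (h | h) | ⟨v, hvA, hvB, hv, ⟨hxA, h⟩ | ⟨hxB, h⟩⟩
  · exact nA x h
  · exact nB x h
  · have h4 := mB _ _ h
    have h5 := huniq x v hxA h4.2.1 hvA hvB h4.2.2.2 hv
    rw [h5] at h
    exact nB v h
  · have h4 := mA _ _ h
    have h5 := huniq x v h4.2.1 hxB hvA hvB h4.2.2.2 hv
    rw [h5] at h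
    exact nA v h

end HM71
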