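import Pool.Agent.HM71.Stage
import Pool.Agent.HM71.Base
import Pool.Agent.HM71.Expl
import Pool.Agent.HM71.Glue

/-!
# HM71/Main : digraphs built from digraphs with dichromatic number at most three by substitution,
one-way unions and unions along complete digraphs
-/

namespace HM71

open HJ71

/-- The least class of digraphs which contains all digraphs with dichromatic number at most three
and every digraph `D` of one of the following kinds:
* `modules`: the vertex set has a partition (`π`) into `r` non-empty parts, `2 ≤ r ≤ p`, such that an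
  arc between two different parts is present or not depending on the two parts only (`R`), and all
  parts induce digraphs of the class;
* `oneway`: no arc leaves the set `S`, and `S` and its complement induce digraphs of the class;
* `glue`: `A ∪ B` is the vertex set, there is no arc between a vertex outside `B` and a vertex outside
  `A`, `A ∩ B` induces a complete digraph, and `A` and `B` induce digraphs of the class. -/
inductive Built (p : ℕ) : Dig → Prop
  | base (D : Dig) : dichromatic D ≤ 3 → Built p D
  | modules (D : Dig) (r : ℕ) (R : Fin r → Fin r → Prop) (π : D.V → Fin r) :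
      2 ≤ r → r ≤ p → Function.Surjective π →
      (∀ x y, π x ≠ π y → (D.adj x y ↔ R (π x) (π y))) →
      (∀ q, Built p (part D π q)) → Built p D
  | oneway (D : Dig) (S : Set D.V) :
      (∀ x y, x ∈ S → y ∉ S → ¬ D.adj x y) →
      Built p (ind D S) → Built p (ind D Sᶜ) → Built p D
  | glue (D : Dig) (A B : Set D.V) :
      (∀ x, x ∈ A ∨ x ∈ B) →
      (∀ x y, x ∉ B → y ∉ A → ¬ D.adj x y ∧ ¬ D.adj y x) →
      (∀ x y, x ∈ A → x ∈ B → y ∈ A → y ∈ B → x ≠ y → D.adj x y) →
      Built p (ind D A) → Built p (ind D B) → Built p D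

theorem card_ind (D : Dig) (S : Set D.V) : Nat.card (ind D S).V ≤ Nat.card D.V := by
  have := D.fin
  exact Nat.card_le_card_of_injective (Subtype.val : (ind D S).V → D.V) Subtype.val_injective

/-- the cost of an induced subdigraph -/
theorem cost_ind {D : Dig} {S : Set D.V} {j A B : ℕ}
    (h : Cost j (A * (Nat.card (ind D S).V - 1) + B * Nat.card (ind D S).V ^ 9) (ind D S).adj) :
    Cost j (A * (Nat.card D.V - 1) + B * Nat.card D.V ^ 9) D.adj := by
  have h3 := card_ind D S
  refine (h.hom (fun x : (ind D S).V => x.1) (H' := D.adj) (fun x y h => h)).up ?_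
  exact Nat.add_le_add (Nat.mul_le_mul_left _ (by omega))
    (Nat.mul_le_mul_left _ (Nat.pow_le_pow_left h3 9))

theorem dicolorable_of_lt {D : Dig} {j : ℕ} (h : dichromatic D < j) : Dicolorable D (j - 1) :=
  dicolorable_mono (dicolorable_dichromatic D) (by omega)

theorem sum_card_part (D : Dig) {r : ℕ} (π : D.V → Fin r) :
    ∑ q, Nat.card (part D π q).V = Nat.card D.V := by
  classical
  have := D.fin
  have : Fintype D.V := Fintype.ofFinite _
  have h1 : ∀ q, Nat.card (part D π q).V = (Finset.univ.filter (fun x => π x = q)).card := by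
    intro q
    show Nat.card {x : D.V // π x = q} = _
    rw [Nat.card_eq_fintype_card, Fintype.card_subtype]
  simp_rw [h1]
  rw [Nat.card_eq_fintype_card, ← Finset.card_univ]
  exact (Finset.card_eq_sum_card_fiberwise (fun x _ => Finset.mem_univ (π x))).symm

theorem arith_sum {r A B N : ℕ} (hr : 2 ≤ r) (n : Fin r → ℕ) (hn : ∀ q, 1 ≤ n q)
    (hN : ∑ q, n q = N) :
    A + ∑ q, (A * (n q - 1) + B * n q ^ 9) ≤ A * (N - 1) + B * N ^ 9 := by
  rw [Finset.sum_add_distrib, ← Finset.mul_sum, ← Finset.mul_sum, ← add_assoc]
  apply Nat.add_le_add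
  · have h1 : ∑ q, (n q - 1) + r = N := by
      rw [← hN]
      have h2 : ∑ q, n q = ∑ q, ((n q - 1) + 1) :=
        Finset.sum_congr rfl fun q _ => by have := hn q; omega
      rw [h2, Finset.sum_add_distrib]
      simp
    have h3 : ∑ q, (n q - 1) + 1 ≤ N - 1 := by omega
    calc A + A * ∑ q, (n q - 1) = A * (∑ q, (n q - 1) + 1) := by ring
      _ ≤ A * (N - 1) := Nat.mul_le_mul_left _ h3
  · apply Nat.mul_le_mul_left
    have h4 : ∀ q, n q ≤ N := fun q => by
      rw [← hN]
      exact Finset.single_le_sum (fun _ _ => Nat.zero_le _) (Finset.mem_univ q)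
    calc ∑ q, n q ^ 9 ≤ ∑ q, n q * N ^ 8 := by
          apply Finset.sum_le_sum
          intro q _
          calc n q ^ 9 = n q * n q ^ 8 := by ring
            _ ≤ n q * N ^ 8 := Nat.mul_le_mul_left _ (Nat.pow_le_pow_left (h4 q) 8)
      _ = N ^ 9 := by
          rw [← Finset.sum_mul, hN]
          ring

/-- the cost of a digraph of the class -/
theorem cost_built {p k : ℕ} {D : Dig} (hD : Built p D) :
    ∀ j, 1 ≤ j → j ≤ k → j ≤ dichromatic D →
      Cost j ((p * k + 1) ^ (2 * (k - 1) * (p * k) + 6) * (Nat.card D.V - 1) +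
        7168000 * Nat.card D.V ^ 9) D.adj := by
  classical
  induction hD with
  | base D h3 =>
    intro j h1 _ hj
    refine (cost_three h1 hj h3).up ?_
    have := D.fin
    have hn : 1 ≤ Nat.card D.V := by
      have := nonempty_of_dichromatic (h1.trans hj)
      exact Nat.card_pos
    have h2 : (Nat.card D.V + 1) ^ 9 ≤ (2 * Nat.card D.V) ^ 9 :=
      Nat.pow_le_pow_left (by omega) 9
    rw [mul_pow] at h2
    norm_num at h2
    omega
  | modules D r R π hr2 hrp hπ hR hpart ih =>
    intro j h1 hjk hj
    have := D.fin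
    obtain ⟨A, hA⟩ : ∃ A, A = (p * k + 1) ^ (2 * (k - 1) * (p * k) + 6) := ⟨_, rfl⟩
    rw [← hA] at ih ⊢
    have hne : ∀ q, 1 ≤ Nat.card (part D π q).V := by
      intro q
      obtain ⟨x, hx⟩ := hπ q
      have : Nonempty (part D π q).V := ⟨⟨x, hx⟩⟩
      have := (part D π q).fin
      exact Nat.card_pos
    have hsum := sum_card_part D π
    by_cases hbig : ∃ q, j ≤ dichromatic (part D π q)
    · obtain ⟨q, hq⟩ := hbig
      have h2 := (ih q j h1 hjk hq).hom (fun x : (part D π q).V => x.1) (H' := D.adj)
        (fun x y h => h)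
      refine h2.up ?_
      have h3 : Nat.card (part D π q).V ≤ Nat.card D.V := by
        rw [← hsum]
        exact Finset.single_le_sum (f := fun q => Nat.card (part D π q).V)
          (fun _ _ => Nat.zero_le _) (Finset.mem_univ q)
      exact Nat.add_le_add (Nat.mul_le_mul_left _ (by omega))
        (Nat.mul_le_mul_left _ (Nat.pow_le_pow_left h3 9))
    · push Not at hbig
      let c : Fin r → ℕ := fun q => dichromatic (part D π q)
      have hc1 : ∀ q, 1 ≤ c q := by
        intro q
        obtain ⟨x, hx⟩ := hπ q
        exact one_le_dichromatic ⟨⟨x, hx⟩⟩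
      have hcK : ∀ q, c q ≤ k := fun q => (hbig q).le.trans hjk
      have hG : j ≤ dichromatic (blow R c k) := by
        apply le_dichromatic
        intro h2
        exact not_dicolorable h1 hj
          (dicolorable_of_blow hR hcK (fun q => dicolorable_dichromatic _) h2)
      have hcard : Nat.card (blow R c k).V ≤ p * k :=
        (card_blow R c k).trans (Nat.mul_le_mul_right _ hrp)
      have h3 : Cost j A (blow R c k).adj := by
        refine (cost_explicit h1 hG hcard).up ?_
        rw [hA]
        apply Nat.pow_le_pow_right (by omega)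
        have h4 : 2 * (j - 1) ≤ 2 * (k - 1) := by omega
        have h5 := Nat.mul_le_mul_right (p * k) h4
        omega
      obtain ⟨x0, -⟩ := hπ ⟨0, by omega⟩
      have h6 := cost_mod (C' := fun q => A * (Nat.card (part D π q).V - 1) +
        7168000 * Nat.card (part D π q).V ^ 9) hR x0 h3
        (fun q => ih q (c q) (hc1 q) (hcK q) le_rfl)
      exact h6.up (arith_sum hr2 _ hne hsum)
  | oneway D S hS _ _ ih1 ih2 =>
    intro j h1 hjk hj
    by_cases hA : j ≤ dichromatic (ind D S)
    · exact cost_ind (ih1 j h1 hjk hA)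
    · by_cases hB : j ≤ dichromatic (ind D Sᶜ)
      · exact cost_ind (ih2 j h1 hjk hB)
      · exact absurd (dicolorable_oneway hS (dicolorable_of_lt (by omega))
          (dicolorable_of_lt (by omega))) (not_dicolorable h1 hj)
  | glue D A B hAB hno hK _ _ ih1 ih2 =>
    intro j h1 hjk hj
    by_cases hA : j ≤ dichromatic (ind D A)
    · exact cost_ind (ih1 j h1 hjk hA)
    · by_cases hB : j ≤ dichromatic (ind D B)
      · exact cost_ind (ih2 j h1 hjk hB)
      · exact absurd (dicolorable_glue hAB hno hK (dicolorable_of_lt (by omega))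
          (dicolorable_of_lt (by omega))) (not_dicolorable h1 hj)

/-- **Main theorem.** -/
theorem main {p k : ℕ} (hk : 1 ≤ k) {D : Dig} (hD : Built p D) (hc : k ≤ dichromatic D) :
    ∃ H : Dig, IsSub H D ∧
      ConstructibleIn k (5 * (p * k + 1) ^ (2 * (k - 1) * (p * k) + 6) * Nat.card D.V +
        4 * 10 ^ 7 * Nat.card D.V ^ 9) H := by
  obtain ⟨H, h1, T, l, m, h2, h3, h4⟩ := (cost_built (k := k) hD k hk le_rfl hc).constructible
  refine ⟨H, h1, T, l, m, h2, h3.trans ?_, h4⟩
  have := D.fin
  have hn : 1 ≤ Nat.card D.V := by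
    have := nonempty_of_dichromatic (hk.trans hc)
    exact Nat.card_pos
  generalize (p * k + 1) ^ (2 * (k - 1) * (p * k) + 6) = A
  generalize hN : Nat.card D.V = n at *
  have e1 : A * (n - 1) ≤ A * n := Nat.mul_le_mul_left _ (by omega)
  have e2 : n ≤ n ^ 9 := Nat.le_self_pow (by norm_num) _
  have e3 : 5 * A * n = 5 * (A * n) := by ring
  rw [e3]
  omega

end HM71
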