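import Pool.Agent.HM71.DD
import Pool.Agent.HM71.Chi

/-!
# HM71/Stage : the cliques are replaced by the parts, one after the other
-/

namespace HM71

open HJ71

section

variable {V : Type} {r K : ℕ}

/-- the position of an element of `V ⊕ (Fin r × Fin K)` -/
def pos (π : V → Fin r) : V ⊕ (Fin r × Fin K) → Fin r
  | Sum.inl x => π x
  | Sum.inr v => v.1

/-- elements of `V` in parts of `S` and clique elements in parts outside `S` are active -/
def act (π : V → Fin r) (c : Fin r → ℕ) (S : Finset (Fin r)) : V ⊕ (Fin r × Fin K) → Prop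
  | Sum.inl x => π x ∈ S
  | Sum.inr v => v.1 ∉ S ∧ v.2.1 < c v.1

/-- the relation inside a part -/
def same (A : V → V → Prop) : V ⊕ (Fin r × Fin K) → V ⊕ (Fin r × Fin K) → Prop
  | Sum.inl x, Sum.inl y => A x y
  | Sum.inl _, Sum.inr _ => False
  | Sum.inr _, Sum.inl _ => False
  | Sum.inr u, Sum.inr v => u.2 ≠ v.2

/-- the target in which the parts of `S` are those of `D`, the others are complete digraphs -/
def stg (A : V → V → Prop) (π : V → Fin r) (R : Fin r → Fin r → Prop) (c : Fin r → ℕ)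
    (S : Finset (Fin r)) (u v : V ⊕ (Fin r × Fin K)) : Prop :=
  act π c S u ∧ act π c S v ∧
    ((pos π u ≠ pos π v ∧ R (pos π u) (pos π v)) ∨ (pos π u = pos π v ∧ same A u v))

end

variable {D : Dig} {r K k : ℕ} {R : Fin r → Fin r → Prop} {π : D.V → Fin r} {c : Fin r → ℕ}

theorem stg_empty {C : ℕ} (h : Cost k C (blow R c K).adj) :
    Cost k C (stg (K := K) D.adj π R c ∅) := by
  refine h.hom (fun v => Sum.inr v.1) ?_
  intro u v huv
  refine ⟨⟨Finset.notMem_empty _, u.2⟩, ⟨Finset.notMem_empty _, v.2⟩, ?_⟩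
  rcases huv with h | h
  · exact Or.inl h
  · exact Or.inr h

theorem stg_univ {C : ℕ} (hR : ∀ x y, π x ≠ π y → (D.adj x y ↔ R (π x) (π y))) (x0 : D.V)
    (h : Cost k C (stg (K := K) D.adj π R c Finset.univ)) : Cost k C D.adj := by
  refine h.hom (Sum.elim id (fun _ => x0)) ?_
  rintro (x | u) (y | v) ⟨h1, h2, h3⟩
  · rcases h3 with h3 | h3
    · exact (hR x y h3.1).2 h3.2
    · exact h3.2
  · exact absurd (Finset.mem_univ _) h2.1
  · exact absurd (Finset.mem_univ _) h1.1
  · exact absurd (Finset.mem_univ _) h1.1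

theorem stg_insert {C C' : ℕ} {S : Finset (Fin r)} {q : Fin r} (hq : q ∉ S)
    (h : Cost k C (stg (K := K) D.adj π R c S))
    (hD : Cost (c q) C' (part D π q).adj) :
    Cost k (C + C') (stg (K := K) D.adj π R c (insert q S)) := by
  classical
  let A := D.V ⊕ (Fin r × Fin K)
  let E : A → A → Prop := fun u v => pos π u ≠ q ∧ pos π v ≠ q ∧ stg D.adj π R c S u v
  let I : A → Prop := fun u => act π c S u ∧ pos π u ≠ q ∧ R (pos π u) q
  let O : A → Prop := fun u => act π c S u ∧ pos π u ≠ q ∧ R q (pos π u)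
  let m : A → A ⊕ Fin (c q) := fun u =>
    match u with
    | Sum.inl x => Sum.inl (Sum.inl x)
    | Sum.inr v => if h : v.1 = q ∧ v.2.1 < c q then Sum.inr ⟨v.2.1, h.2⟩ else
        Sum.inl (Sum.inr v)
  have hm1 : ∀ v : Fin r × Fin K, ∀ (h1 : v.1 = q) (h2 : v.2.1 < c q),
      m (Sum.inr v) = Sum.inr ⟨v.2.1, h2⟩ := fun v h1 h2 => dif_pos ⟨h1, h2⟩
  have hm2 : ∀ v : Fin r × Fin K, v.1 ≠ q → m (Sum.inr v) = Sum.inl (Sum.inr v) :=
    fun v h1 => dif_neg fun h => h1 h.1
  have hpos : ∀ u : A, act π c S u → (pos π u ≠ q ∧ m u = Sum.inl u) ∨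
      ∃ v : Fin r × Fin K, ∃ h2 : v.2.1 < c q, u = Sum.inr v ∧ v.1 = q ∧
        m u = Sum.inr ⟨v.2.1, h2⟩ := by
    rintro (x | v) hu
    · left
      refine ⟨fun h => hq ?_, rfl⟩
      have hu' : π x ∈ S := hu
      have h' : π x = q := h
      rwa [h'] at hu'
    · by_cases h1 : v.1 = q
      · right
        have h2 : v.2.1 < c q := by
          have := hu.2
          rwa [h1] at this
        exact ⟨v, h2, rfl, h1, hm1 v h1 h2⟩
      · exact Or.inl ⟨h1, hm2 v h1⟩
  have h1 : Cost k C (Ctx E I O (fun i j : Fin (c q) => i ≠ j)) := by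
    refine h.hom m ?_
    intro u v huv
    rcases hpos u huv.1 with ⟨hu, e1⟩ | ⟨u', hu1, rfl, hu2, e1⟩
    · rcases hpos v huv.2.1 with ⟨hv, e2⟩ | ⟨v', hv1, rfl, hv2, e2⟩
      · rw [e1, e2]
        exact ⟨hu, hv, huv⟩
      · rw [e1, e2]
        refine ⟨huv.1, hu, ?_⟩
        have hv3 : pos π (Sum.inr v' : A) = q := hv2
        rcases huv.2.2 with h3 | h3
        · rw [← hv3]
          exact h3.2
        · exact absurd (h3.1.trans hv3) hu
    · have hu3 : pos π (Sum.inr u' : A) = q := hu2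
      rcases hpos v huv.2.1 with ⟨hv, e2⟩ | ⟨v', hv1, rfl, hv2, e2⟩
      · rw [e1, e2]
        refine ⟨huv.2.1, hv, ?_⟩
        rcases huv.2.2 with h3 | h3
        · rw [← hu3]
          exact h3.2
        · exact absurd (h3.1.symm.trans hu3) hv
      · rw [e1, e2]
        have hv3 : pos π (Sum.inr v' : A) = q := hv2
        rcases huv.2.2 with h3 | h3
        · exact absurd (hu3.trans hv3.symm) h3.1
        · intro h4
          apply h3.2
          apply Fin.ext
          have h5 := Fin.ext_iff.1 h4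
          exact h5
  refine (Cost.ctx hD h1).hom (Sum.elim id (fun x => Sum.inl x.1)) ?_
  have hins : ∀ u : A, act π c S u → pos π u ≠ q → act π c (insert q S) u := by
    rintro (x | v) h2 h3
    · exact Finset.mem_insert_of_mem h2
    · refine ⟨fun h4 => ?_, h2.2⟩
      rcases Finset.mem_insert.1 h4 with h5 | h5
      · exact h3 h5
      · exact h2.1 h5
  have hx : ∀ x : (part D π q).V, act π c (insert q S) (Sum.inl x.1 : A) := by
    intro x
    have h2 : π x.1 = q := x.2
    show π x.1 ∈ insert q S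
    rw [h2]
    exact Finset.mem_insert_self _ _
  rintro (u | x) (v | y) h2
  · exact ⟨hins u h2.2.2.1 h2.1, hins v h2.2.2.2.1 h2.2.1, h2.2.2.2.2⟩
  · have h3 : pos π (Sum.inl y.1 : A) = q := y.2
    refine ⟨hins u h2.1 h2.2.1, hx y, Or.inl ?_⟩
    show pos π u ≠ pos π (Sum.inl y.1 : A) ∧ R (pos π u) (pos π (Sum.inl y.1 : A))
    rw [h3]
    exact h2.2
  · have h3 : pos π (Sum.inl x.1 : A) = q := x.2
    refine ⟨hx x, hins v h2.1 h2.2.1, Or.inl ?_⟩
    show pos π (Sum.inl x.1 : A) ≠ pos π v ∧ R (pos π (Sum.inl x.1 : A)) (pos π v)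
    rw [h3]
    exact ⟨fun h => h2.2.1 h.symm, h2.2.2⟩
  · have h3 : π x.1 = q := x.2
    have h4 : π y.1 = q := y.2
    exact ⟨hx x, hx y, Or.inr ⟨h3.trans h4.symm, h2⟩⟩

/-- the cost of `D` from the cost of the blow-up of the quotient and the costs of the parts -/
theorem cost_mod {C : ℕ} {C' : Fin r → ℕ}
    (hR : ∀ x y, π x ≠ π y → (D.adj x y ↔ R (π x) (π y))) (x0 : D.V)
    (h : Cost k C (blow R c K).adj) (hD : ∀ q, Cost (c q) (C' q) (part D π q).adj) :
    Cost k (C + ∑ q, C' q) D.adj := by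
  classical
  apply stg_univ (K := K) (c := c) hR x0
  have key : ∀ S : Finset (Fin r), Cost k (C + ∑ q ∈ S, C' q) (stg (K := K) D.adj π R c S) := by
    intro S
    induction S using Finset.induction_on with
    | empty => rw [Finset.sum_empty, add_zero]; exact stg_empty h
    | insert q S hq ih =>
      rw [Finset.sum_insert hq, add_comm (C' q), ← add_assoc]
      exact stg_insert hq ih (hD q)
  exact key Finset.univ

end HM71
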